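import Pool.Agent.W960.HC.Defs

open Set Topology Filter MeasureTheory

namespace Pool.Agent.W162.HC

open Pool.Agent.W960.HC

theorem closed_image {V V' : ℝ × ℝ → ℝ × ℝ} (L : (ℝ × ℝ) ≃L[ℝ] (ℝ × ℝ))
    (h : ∀ p, L (V p) = V' (L p)) {D : Set (ℝ × ℝ)} (hD : D ∈ Closed V) :
    L '' D ∈ Closed V' := by
  obtain ⟨γ, T, hT, hd, hp, ⟨t0, ht0⟩, rfl⟩ := hD
  refine ⟨fun t => L (γ t), T, hT, fun t => ?_, fun t => ?_, ⟨t0, fun e => ht0 (L.injective e)⟩, ?_⟩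
  · have h1 := (L.hasFDerivAt (x := γ t)).comp_hasDerivAt t (hd t)
    rw [← h]
    exact h1
  · show L (γ (t + T)) = L (γ t)
    rw [hp]
  · rw [← Set.range_comp]; rfl

theorem cyc_image {V V' : ℝ × ℝ → ℝ × ℝ} (L : (ℝ × ℝ) ≃L[ℝ] (ℝ × ℝ))
    (h : ∀ p, L (V p) = V' (L p)) {C : Set (ℝ × ℝ)} (hC : C ∈ Cyc V) :
    L '' C ∈ Cyc V' := by
  obtain ⟨hC1, U, hU, hCU, hiso⟩ := hC
  have h' : ∀ p, L.symm (V' p) = V (L.symm p) := fun p => by
    rw [ContinuousLinearEquiv.symm_apply_eq, h, ContinuousLinearEquiv.apply_symm_apply]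
  refine ⟨closed_image L h hC1, L '' U, L.toHomeomorph.isOpenMap U hU,
    Set.image_mono hCU, fun D hD hne => ?_⟩
  have h1 := closed_image L.symm h' hD
  obtain ⟨z, hz, w, hw, hwz⟩ := hne
  have h2 := hiso _ h1 ⟨w, ⟨z, hz, by rw [← hwz]; simp⟩, hw⟩
  rw [← h2, ← Set.image_comp]
  ext x
  simp

theorem cyc_encard {V V' : ℝ × ℝ → ℝ × ℝ} (L : (ℝ × ℝ) ≃L[ℝ] (ℝ × ℝ))
    (h : ∀ p, L (V p) = V' (L p)) : (Cyc V).encard ≤ (Cyc V').encard := by
  have hinj : Function.Injective (fun D : Set (ℝ × ℝ) => L '' D) :=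
    Set.image_injective.mpr L.injective
  rw [← hinj.encard_image (Cyc V)]
  apply Set.encard_le_encard
  rintro _ ⟨C, hC, rfl⟩
  exact cyc_image L h hC

/-- the shear -/
noncomputable def sh (α : ℝ) : (ℝ × ℝ) ≃L[ℝ] (ℝ × ℝ) :=
  LinearEquiv.toContinuousLinearEquiv
    { toFun := fun p => (p.1, p.2 - α * p.1)
      invFun := fun p => (p.1, p.2 + α * p.1)
      map_add' := fun p q => by ext <;> simp; ring
      map_smul' := fun c p => by ext <;> simp; ring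
      left_inv := fun p => by ext <;> simp
      right_inv := fun p => by ext <;> simp }

theorem sh_apply (α : ℝ) (p : ℝ × ℝ) : sh α p = (p.1, p.2 - α * p.1) := rfl

theorem transfer {a c ε : ℝ} (h : 2 < (Cyc (fld a c ε)).encard) :
    ∃ P Q : MvPolynomial (Fin 2) ℝ, P.IsHomogeneous 1 ∧ Q.IsHomogeneous 3 ∧
      2 < (Cyc fun p : ℝ × ℝ => (MvPolynomial.eval (![p.1, p.2] : Fin 2 → ℝ) P,
        MvPolynomial.eval (![p.1, p.2] : Fin 2 → ℝ) Q)).encard := by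
  have hX0 := MvPolynomial.isHomogeneous_X ℝ (0 : Fin 2)
  have hX1 := MvPolynomial.isHomogeneous_X ℝ (1 : Fin 2)
  have hV : (MvPolynomial.X 1 + MvPolynomial.C (ε * a) * MvPolynomial.X 0 :
      MvPolynomial (Fin 2) ℝ).IsHomogeneous 1 := by
    refine hX1.add ?_
    have := (MvPolynomial.isHomogeneous_C (Fin 2) (ε * a)).mul hX0
    simpa using this
  set V : MvPolynomial (Fin 2) ℝ :=
    MvPolynomial.X 1 + MvPolynomial.C (ε * a) * MvPolynomial.X 0 with hVdef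
  have hQ : (MvPolynomial.C (-1 : ℝ) * MvPolynomial.X 0 ^ 3 + MvPolynomial.X 0 * V ^ 2 +
      MvPolynomial.C (ε * c) * (MvPolynomial.X 0 ^ 2 * V) + MvPolynomial.C ε * V ^ 3 :
      MvPolynomial (Fin 2) ℝ).IsHomogeneous 3 := by
    refine ((MvPolynomial.IsHomogeneous.add ?_ ?_).add ?_).add ?_
    · have := (MvPolynomial.isHomogeneous_C (Fin 2) (-1 : ℝ)).mul (hX0.pow 3)
      simpa using this
    · have := hX0.mul (hV.pow 2)
      simpa using this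
    · have := (MvPolynomial.isHomogeneous_C (Fin 2) (ε * c)).mul ((hX0.pow 2).mul hV)
      simpa using this
    · have := (MvPolynomial.isHomogeneous_C (Fin 2) ε).mul (hV.pow 3)
      simpa using this
  refine ⟨V, _, hV, hQ, lt_of_lt_of_le h (cyc_encard (sh (ε * a)) fun p => ?_)⟩
  rw [sh_apply, sh_apply]
  simp only [fld, hVdef, map_add, map_mul, map_pow, MvPolynomial.eval_X, MvPolynomial.eval_C,
    Matrix.cons_val_zero, Matrix.cons_val_one]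
  ext
  · simp
  · simp only []
    ring

theorem frozen (hE : ∃ a c ε : ℝ, 2 < (Cyc (fld a c ε)).encard) :
    ¬ (∀ n m : ℕ, Odd n → Odd m → n ≠ m →
      IsGreatest
        {k : ℕ∞ | ∃ P Q : MvPolynomial (Fin 2) ℝ, P.IsHomogeneous n ∧ Q.IsHomogeneous m ∧
          Set.encard
            {C : Set (ℝ × ℝ) |
              C ∈ {D : Set (ℝ × ℝ) | ∃ γ : ℝ → ℝ × ℝ, ∃ T : ℝ, 0 < T ∧
                  (∀ t : ℝ, HasDerivAt γ
                    (MvPolynomial.eval (![(γ t).1, (γ t).2] : Fin 2 → ℝ) P,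
                     MvPolynomial.eval (![(γ t).1, (γ t).2] : Fin 2 → ℝ) Q) t) ∧
                  (∀ t : ℝ, γ (t + T) = γ t) ∧ (∃ t : ℝ, γ t ≠ γ 0) ∧ D = Set.range γ} ∧
              ∃ U : Set (ℝ × ℝ), IsOpen U ∧ C ⊆ U ∧
                ∀ D ∈ {D : Set (ℝ × ℝ) | ∃ γ : ℝ → ℝ × ℝ, ∃ T : ℝ, 0 < T ∧
                  (∀ t : ℝ, HasDerivAt γ
                    (MvPolynomial.eval (![(γ t).1, (γ t).2] : Fin 2 → ℝ) P,
                     MvPolynomial.eval (![(γ t).1, (γ t).2] : Fin 2 → ℝ) Q) t) ∧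
                  (∀ t : ℝ, γ (t + T) = γ t) ∧ (∃ t : ℝ, γ t ≠ γ 0) ∧ D = Set.range γ},
                  (D ∩ U).Nonempty → D = C} = k}
        (((n + m) / 2 : ℕ) : ℕ∞)) := by
  intro H
  obtain ⟨a, c, ε, h⟩ := hE
  obtain ⟨P, Q, hP, hQ, h2⟩ := transfer h
  have h3 := (H 1 3 (by decide) (by decide) (by decide)).2 ⟨P, Q, hP, hQ, rfl⟩
  have h4 : (Cyc fun p : ℝ × ℝ => (MvPolynomial.eval (![p.1, p.2] : Fin 2 → ℝ) P,
        MvPolynomial.eval (![p.1, p.2] : Fin 2 → ℝ) Q)).encard ≤ (((1 + 3) / 2 : ℕ) : ℕ∞) := h3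
  have h5 : (((1 + 3) / 2 : ℕ) : ℕ∞) = 2 := by norm_num
  rw [h5] at h4
  exact absurd h2 (not_lt.mpr h4)

end Pool.Agent.W162.HC
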