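import Mathlib

open Finset

namespace Pool.Agent.W162.Sauer

/-- the degree sequence of the levels -/
def dd (M : ℕ) : ℕ → ℕ
  | 0 => 2
  | (j+1) => (6^8 * 2^(8*(j+1)) * 2^(8*(j+2)) * (12*M*(M+1))) * (dd M j)^9

theorem dd_succ (M j : ℕ) :
    dd M (j+1) = (6^8 * 2^(8*(j+1)) * 2^(8*(j+2)) * (12*M*(M+1))) * (dd M j)^9 := rfl

theorem coef_pos (M : ℕ) (hM : 1 ≤ M) (j : ℕ) :
    2 ≤ 6^8 * 2^(8*(j+1)) * 2^(8*(j+2)) * (12*M*(M+1)) := by
  have h1 : 1 ≤ 2^(8*(j+1)) := Nat.one_le_two_pow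
  have h2 : 1 ≤ 2^(8*(j+2)) := Nat.one_le_two_pow
  have h3 : 1 ≤ 12*M*(M+1) := by nlinarith
  calc 2 ≤ 6^8 * 1 * 1 * 1 := by norm_num
    _ ≤ _ := by gcongr

theorem two_le_dd (M : ℕ) (hM : 1 ≤ M) (j : ℕ) : 2 ≤ dd M j := by
  induction j with
  | zero => simp [dd]
  | succ j ih =>
    rw [dd_succ]
    calc 2 ≤ 2 * 1 := by norm_num
      _ ≤ _ := Nat.mul_le_mul (coef_pos M hM j) (Nat.one_le_pow _ _ (by omega))

theorem dd_dvd_succ (M : ℕ) (j : ℕ) : dd M j ∣ dd M (j+1) := by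
  rw [dd_succ]
  exact Dvd.dvd.mul_left (dvd_pow_self _ (by norm_num)) _

theorem dd_dvd (M : ℕ) {i j : ℕ} (h : i ≤ j) : dd M i ∣ dd M j := by
  induction j, h using Nat.le_induction with
  | base => exact dvd_rfl
  | succ j _ ih => exact ih.trans (dd_dvd_succ M j)

theorem two_mul_dd_le (M : ℕ) (hM : 1 ≤ M) (j : ℕ) : 2 * dd M j ≤ dd M (j+1) := by
  rw [dd_succ]
  exact Nat.mul_le_mul (coef_pos M hM j) (Nat.le_self_pow (by norm_num) _)

theorem dd_mono (M : ℕ) (hM : 1 ≤ M) {i j : ℕ} (h : i ≤ j) : dd M i ≤ dd M j :=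
  Nat.le_of_dvd (by have := two_le_dd M hM j; omega) (dd_dvd M h)

/-- binomial coefficient bound -/
theorem choose_le (N s : ℕ) (hs : 1 ≤ s) : (N.choose s : ℝ) ≤ (3 * N / s)^s := by
  have h1 : (N.choose s : ℝ) ≤ (N:ℝ)^s / (s.factorial : ℝ) := Nat.choose_le_pow_div s N
  have h2 : (s:ℝ)^s / (s.factorial : ℝ) ≤ Real.exp s :=
    Real.pow_div_factorial_le_exp (s:ℝ) (Nat.cast_nonneg s) s
  have h3 : Real.exp (s:ℝ) ≤ 3^s := by
    have : Real.exp (s:ℝ) = (Real.exp 1)^s := by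
      rw [← Real.exp_nat_mul]; simp
    rw [this]
    gcongr
    exact Real.exp_one_lt_d9.le.trans (by norm_num)
  have hs0 : (0:ℝ) < s := by exact_mod_cast hs
  have hf : (0:ℝ) < (s.factorial : ℝ) := by exact_mod_cast s.factorial_pos
  have h4 : (s:ℝ)^s ≤ 3^s * (s.factorial : ℝ) := by
    rw [div_le_iff₀ hf] at h2
    exact h2.trans (by gcongr)
  calc (N.choose s : ℝ) ≤ (N:ℝ)^s / (s.factorial : ℝ) := h1
    _ ≤ (3 * N / s)^s := by
      rw [div_pow, mul_pow, div_le_div_iff₀ hf (by positivity)]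
      have : (0:ℝ) ≤ (N:ℝ)^s := by positivity
      nlinarith

theorem key_real (K : ℝ) (hK : 0 < K) (j s E n N : ℕ) (d D : ℝ) (hd : 1 ≤ d) (hs : 1 ≤ s)
    (hn : 1 ≤ n)
    (hD : D = 6^8 * 2^(8*(j+1)) * 2^(8*(j+2)) * K * d^9)
    (hsD : s * D ≤ K * n) (hN : N ≤ 2 * n) (hE : 9 * s ≤ 8 * E) :
    (N.choose s : ℝ) * 2^((j+1)*s) * (s * d / n)^E ≤ (1/2)^((j+2)*s) := by
  have hs0 : (0:ℝ) < s := by exact_mod_cast hs
  have hn0 : (0:ℝ) < n := by exact_mod_cast hn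
  have hN' : (N:ℝ) ≤ 2 * n := by exact_mod_cast hN
  have hd0 : 0 < d := by linarith
  have hD0 : 0 < D := by rw [hD]; positivity
  set q : ℝ := s * d / n with hq
  have hq0 : 0 ≤ q := by positivity
  have hsn : (s:ℝ) / n ≤ K / D := by
    rw [div_le_div_iff₀ hn0 hD0]; exact hsD
  have hKD : K / D = 1 / (6^8 * 2^(8*(j+1)) * 2^(8*(j+2)) * d^9) := by
    rw [hD]; field_simp
  have hq1 : q ≤ 1 := by
    have : q = (s / n) * d := by rw [hq]; ring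
    rw [this]
    calc (s:ℝ) / n * d ≤ (K / D) * d := by gcongr
      _ = (1 / (6^8 * 2^(8*(j+1)) * 2^(8*(j+2)) * d^9)) * d := by rw [hKD]
      _ = 1 / (6^8 * 2^(8*(j+1)) * 2^(8*(j+2)) * d^8) := by field_simp
      _ ≤ 1 := by
        rw [div_le_one (by positivity)]
        have h1 : (1:ℝ) ≤ 2^(8*(j+1)) := one_le_pow₀ (by norm_num)
        have h2 : (1:ℝ) ≤ 2^(8*(j+2)) := one_le_pow₀ (by norm_num)
        have h3 : (1:ℝ) ≤ d^8 := one_le_pow₀ hd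
        calc (1:ℝ) ≤ 1 * 1 * 1 * 1 := by norm_num
          _ ≤ _ := by gcongr; norm_num
  have hc := choose_le N s hs
  have hcore : (3 * (N:ℝ) / s)^8 * 2^(8*(j+1)) * q^9 ≤ (1/2)^(8*(j+2)) := by
    have h0 : 3 * (N:ℝ) ≤ 6 * n := by linarith
    have h1 : (3 * (N:ℝ) / s)^8 ≤ (6 * n / s)^8 :=
      pow_le_pow_left₀ (by positivity) (div_le_div_of_nonneg_right h0 hs0.le) 8
    calc (3 * (N:ℝ) / s)^8 * 2^(8*(j+1)) * q^9 ≤ (6 * n / s)^8 * 2^(8*(j+1)) * q^9 := by gcongr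
      _ = 6^8 * 2^(8*(j+1)) * d^9 * (s / n) := by
        rw [hq]; field_simp
      _ ≤ 6^8 * 2^(8*(j+1)) * d^9 * (K / D) := by gcongr
      _ = (1/2)^(8*(j+2)) := by
        rw [hKD, one_div, one_div, inv_pow]; field_simp
  have hX8 : ((N.choose s : ℝ) * 2^((j+1)*s) * q^E)^8 ≤ ((1/2)^((j+2)*s))^8 := by
    calc ((N.choose s : ℝ) * 2^((j+1)*s) * q^E)^8
        = (N.choose s : ℝ)^8 * (2^((j+1)*s))^8 * q^(8*E) := by
          rw [mul_pow, mul_pow]; congr 1; rw [← pow_mul]; congr 1; ring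
      _ ≤ ((3 * N / s)^s)^8 * (2^((j+1)*s))^8 * q^(9*s) := by
          gcongr ?_ * _ * ?_
          · gcongr
          · exact pow_le_pow_of_le_one hq0 hq1 hE
      _ = ((3 * (N:ℝ) / s)^8 * 2^(8*(j+1)) * q^9)^s := by
          rw [mul_pow, mul_pow, ← pow_mul, ← pow_mul, ← pow_mul, ← pow_mul, ← pow_mul]
          congr 2
          · congr 1; ring
          · congr 1; ring
      _ ≤ ((1/2)^(8*(j+2)))^s := by gcongr
      _ = ((1/2)^((j+2)*s))^8 := by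
          rw [← pow_mul, ← pow_mul]; congr 1; ring
  exact (pow_le_pow_iff_left₀ (by positivity) (by positivity) (by norm_num)).1 hX8

theorem geom_half (K : ℕ) : ∑ s ∈ Finset.Icc 1 K, (1/2:ℝ)^s < 1 := by
  have : ∀ K : ℕ, ∑ s ∈ Finset.Icc 1 K, (1/2:ℝ)^s = 1 - (1/2)^K := by
    intro K
    induction K with
    | zero => simp
    | succ K ih =>
      rw [Finset.sum_Icc_succ_top (by omega), ih, pow_succ]; ring
  rw [this]
  have : (0:ℝ) < (1/2)^K := by positivity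
  linarith

end Pool.Agent.W162.Sauer
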