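import Pool.Agent.W162.Sauer1

open Finset

namespace Pool.Agent.W162.Sauer

variable {m : ℕ}

/-- the configurations -/
abbrev Om (n : ℕ) (β : Fin m → ℕ) := (p : Fin m × Fin n) → Fin (β p.1)

/-- the vertices -/
abbrev VV (n : ℕ) (β : Fin m → ℕ) := Fin n ⊕ (Σ i : Fin m, Fin (β i))

open Classical in
theorem count_le {n : ℕ} (β : Fin m → ℕ) (P : Finset (Fin m × Fin n))
    (R : (p : Fin m × Fin n) → Finset (Fin (β p.1))) (q : ℝ) (_hq : 0 ≤ q)
    (hR : ∀ p ∈ P, ((R p).card : ℝ) ≤ q * β p.1) :
    ((univ.filter (fun ω : Om n β => ∀ p ∈ P, ω p ∈ R p)).card : ℝ)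
      ≤ q ^ P.card * (Fintype.card (Om n β) : ℝ) := by
  have h1 : univ.filter (fun ω : Om n β => ∀ p ∈ P, ω p ∈ R p)
      = Fintype.piFinset (fun p => if p ∈ P then R p else univ) := by
    ext ω
    simp only [mem_filter, mem_univ, true_and, Fintype.mem_piFinset]
    constructor
    · intro h p
      by_cases hp : p ∈ P
      · simp [hp, h p hp]
      · simp [hp]
    · intro h p hp
      have := h p
      simpa [hp] using this
  rw [h1, Fintype.card_piFinset, Fintype.card_pi]
  push_cast
  have h2 : q ^ P.card = ∏ p : Fin m × Fin n, (if p ∈ P then q else 1) := by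
    rw [Finset.prod_ite_mem]; simp
  rw [h2, ← Finset.prod_mul_distrib]
  apply Finset.prod_le_prod
  · intro p _; positivity
  · intro p _
    by_cases hp : p ∈ P
    · simpa [hp] using hR p hp
    · simp [hp]

/-- a locally dense set of size `s` using only the levels below `t` -/
def Bad {n : ℕ} (β : Fin m → ℕ) (t s : ℕ) (ω : Om n β) : Prop :=
  ∃ S : Finset (VV n β), S.card = s ∧ ∃ P : Finset (Fin m × Fin n),
    (∀ p ∈ P, (p.1 : ℕ) < t ∧ Sum.inl p.2 ∈ S ∧ Sum.inr ⟨p.1, ω p⟩ ∈ S) ∧ 9 * s ≤ 8 * P.card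

open Classical in
theorem bad_card_le {n : ℕ} (β : Fin m → ℕ) (t s : ℕ) (q r : ℝ) (hq : 0 ≤ q) (hr : 0 ≤ r)
    (hβ : ∀ i : Fin m, (i : ℕ) < t → (s : ℝ) ≤ q * β i)
    (hqr : ∀ E : ℕ, 9 * s ≤ 8 * E →
      ((Fintype.card (VV n β)).choose s : ℝ) * 2^(t*s) * q^E ≤ r) :
    ((univ.filter (fun ω : Om n β => Bad β t s ω)).card : ℝ)
      ≤ r * (Fintype.card (Om n β) : ℝ) := by
  set N := Fintype.card (VV n β) with hN
  let base : Finset (VV n β) → Finset (Fin m × Fin n) := fun S =>
    univ.filter (fun p => (p.1 : ℕ) < t ∧ (Sum.inl p.2 : VV n β) ∈ S)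
  let F : Finset (VV n β) → Finset (Finset (Fin m × Fin n)) := fun S =>
    (base S).powerset.filter (fun P => 9 * s ≤ 8 * P.card)
  let R : Finset (VV n β) → (p : Fin m × Fin n) → Finset (Fin (β p.1)) := fun S p =>
    univ.filter (fun b => (Sum.inr ⟨p.1, b⟩ : VV n β) ∈ S)
  let Z : Finset (VV n β) → Finset (Fin m × Fin n) → Finset (Om n β) := fun S P =>
    univ.filter (fun ω : Om n β => ∀ p ∈ P, ω p ∈ R S p)
  have hsub : univ.filter (fun ω : Om n β => Bad β t s ω) ⊆
      (powersetCard s (univ : Finset (VV n β))).biUnion (fun S => (F S).biUnion (fun P => Z S P)) := by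
    intro ω hω
    simp only [mem_filter, mem_univ, true_and] at hω
    obtain ⟨S, hS, P, hP, hPc⟩ := hω
    simp only [mem_biUnion, mem_powersetCard, subset_univ, true_and]
    refine ⟨S, hS, P, ?_, ?_⟩
    · simp only [F, mem_filter, mem_powerset]
      refine ⟨fun p hp => ?_, hPc⟩
      simp only [base, mem_filter, mem_univ, true_and]
      exact ⟨(hP p hp).1, (hP p hp).2.1⟩
    · simp only [Z, mem_filter, mem_univ, true_and]
      intro p hp
      simp only [R, mem_filter, mem_univ, true_and]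
      exact (hP p hp).2.2
  have hbase : ∀ S : Finset (VV n β), S.card = s → (base S).card ≤ t * s := by
    intro S hS
    have h1 : (base S).card ≤ ((Finset.range t) ×ˢ S).card := by
      apply Finset.card_le_card_of_injOn (fun p => ((p.1 : ℕ), (Sum.inl p.2 : VV n β)))
      · intro p hp
        have hp' : (p.1 : ℕ) < t ∧ (Sum.inl p.2 : VV n β) ∈ S := by
          simpa [base] using hp
        simp only [coe_product, Set.mem_prod, Finset.mem_coe, Finset.mem_range]
        exact hp'
      · intro p _ p' _ h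
        simp only [Prod.mk.injEq, Sum.inl.injEq] at h
        exact Prod.ext (Fin.ext h.1) h.2
    rw [Finset.card_product, Finset.card_range, hS] at h1
    exact h1
  have hRS : ∀ S : Finset (VV n β), S.card = s → ∀ p, (R S p).card ≤ s := by
    intro S hS p
    rw [← hS]
    apply Finset.card_le_card_of_injOn (fun b => (Sum.inr ⟨p.1, b⟩ : VV n β))
    · intro b hb
      simpa [R] using hb
    · intro b _ b' _ h
      simp only [Sum.inr.injEq, Sigma.mk.injEq, heq_eq_eq, true_and] at h
      exact h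
  have hZ : ∀ S : Finset (VV n β), S.card = s → ∀ P ∈ F S,
      ((Z S P).card : ℝ) ≤ q ^ P.card * (Fintype.card (Om n β) : ℝ) := by
    intro S hS P hP
    apply count_le β P (R S) q hq
    intro p hp
    have hp' : p ∈ base S := by
      have := (Finset.mem_filter.1 hP).1
      exact (Finset.mem_powerset.1 this) hp
    have hpt : (p.1 : ℕ) < t := by
      simp only [base, mem_filter, mem_univ, true_and] at hp'
      exact hp'.1
    refine le_trans ?_ (hβ p.1 hpt)
    exact_mod_cast hRS S hS p
  by_cases hch : N.choose s = 0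
  · have : powersetCard s (univ : Finset (VV n β)) = ∅ := by
      rw [← Finset.card_eq_zero, Finset.card_powersetCard, Finset.card_univ, ← hN]; exact hch
    rw [this] at hsub
    simp only [biUnion_empty, subset_empty] at hsub
    rw [hsub]
    simp only [card_empty, Nat.cast_zero]
    positivity
  have hch' : (0:ℝ) < (N.choose s : ℝ) := by exact_mod_cast Nat.pos_of_ne_zero hch
  have hqE : ∀ E : ℕ, 9 * s ≤ 8 * E → q ^ E ≤ r / ((N.choose s : ℝ) * 2^(t*s)) := by
    intro E hE
    rw [le_div_iff₀ (by positivity)]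
    have := hqr E hE
    linarith
  have hF : ∀ S : Finset (VV n β), S.card = s → ((F S).card : ℝ) ≤ 2^(t*s) := by
    intro S hS
    have h1 : (F S).card ≤ 2^((base S).card) := by
      rw [← Finset.card_powerset]; exact Finset.card_filter_le _ _
    have h2 : 2^((base S).card) ≤ 2^(t*s) := Nat.pow_le_pow_right (by norm_num) (hbase S hS)
    exact_mod_cast h1.trans h2
  calc ((univ.filter (fun ω : Om n β => Bad β t s ω)).card : ℝ)
      ≤ (((powersetCard s (univ : Finset (VV n β))).biUnion
          (fun S => (F S).biUnion (fun P => Z S P))).card : ℝ) := by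
        exact_mod_cast Finset.card_le_card hsub
    _ ≤ ∑ S ∈ powersetCard s (univ : Finset (VV n β)), (((F S).biUnion (fun P => Z S P)).card : ℝ) := by
        exact_mod_cast Finset.card_biUnion_le
    _ ≤ ∑ S ∈ powersetCard s (univ : Finset (VV n β)), ∑ P ∈ F S, ((Z S P).card : ℝ) := by
        apply Finset.sum_le_sum
        intro S _
        exact_mod_cast Finset.card_biUnion_le
    _ ≤ ∑ S ∈ powersetCard s (univ : Finset (VV n β)),
          (r / (N.choose s : ℝ) * (Fintype.card (Om n β) : ℝ)) := by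
        apply Finset.sum_le_sum
        intro S hS
        have hS' : S.card = s := (Finset.mem_powersetCard.1 hS).2
        calc ∑ P ∈ F S, ((Z S P).card : ℝ)
            ≤ ∑ P ∈ F S, (r / ((N.choose s : ℝ) * 2^(t*s)) * (Fintype.card (Om n β) : ℝ)) := by
              apply Finset.sum_le_sum
              intro P hP
              refine (hZ S hS' P hP).trans ?_
              gcongr
              exact hqE _ (Finset.mem_filter.1 hP).2
          _ = (F S).card * (r / ((N.choose s : ℝ) * 2^(t*s)) * (Fintype.card (Om n β) : ℝ)) := by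
              rw [Finset.sum_const, nsmul_eq_mul]
          _ ≤ 2^(t*s) * (r / ((N.choose s : ℝ) * 2^(t*s)) * (Fintype.card (Om n β) : ℝ)) := by
              gcongr
              exact hF S hS'
          _ = r / (N.choose s : ℝ) * (Fintype.card (Om n β) : ℝ) := by
              field_simp
    _ = r * (Fintype.card (Om n β) : ℝ) := by
        rw [Finset.sum_const, Finset.card_powersetCard, Finset.card_univ, ← hN, nsmul_eq_mul]
        field_simp

/-- number of vertices on the levels -/
def bet (M m : ℕ) (i : Fin m) : ℕ := dd M m / dd M i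

theorem bet_mul (M : ℕ) (m : ℕ) (i : Fin m) : bet M m i * dd M i = dd M m :=
  Nat.div_mul_cancel (dd_dvd M i.2.le)

theorem sum_tail (M : ℕ) (hM : 1 ≤ M) (m r t : ℕ) (h : t + r = m) :
    ∑ i ∈ Finset.Ico t m, (dd M m : ℝ) / dd M i ≤ 2 * ((dd M m : ℝ) / dd M t) := by
  induction r generalizing t with
  | zero =>
    have : t = m := by omega
    subst this
    simp only [Ico_self, sum_empty]
    positivity
  | succ r ih =>
    rw [Finset.sum_eq_sum_Ico_succ_bot (by omega : t < m)]
    have h1 := ih (t+1) (by omega)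
    have hpos : (0:ℝ) < dd M t := by
      have := two_le_dd M hM t
      exact_mod_cast (by omega : 0 < dd M t)
    have hpos' : (0:ℝ) < dd M (t+1) := by
      have := two_le_dd M hM (t+1)
      exact_mod_cast (by omega : 0 < dd M (t+1))
    have h2 : (2:ℝ) * dd M t ≤ dd M (t+1) := by exact_mod_cast two_mul_dd_le M hM t
    have h3 : 2 * ((dd M m : ℝ) / dd M (t+1)) ≤ (dd M m : ℝ) / dd M t := by
      rw [mul_div_assoc', div_le_div_iff₀ hpos' hpos]
      have : (0:ℝ) ≤ dd M m := Nat.cast_nonneg _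
      nlinarith
    linarith

theorem bet_cast (M : ℕ) (hM : 1 ≤ M) (m : ℕ) (i : Fin m) :
    (bet M m i : ℝ) = (dd M m : ℝ) / dd M i := by
  have hpos : (0:ℝ) < dd M i := by
    have := two_le_dd M hM i
    exact_mod_cast (by omega : 0 < dd M i)
  rw [eq_div_iff hpos.ne']
  exact_mod_cast bet_mul M m i

theorem sum_bet_le (M : ℕ) (hM : 1 ≤ M) (m : ℕ) : ∑ i : Fin m, bet M m i ≤ dd M m := by
  have h1 : (∑ i : Fin m, (bet M m i : ℝ)) = ∑ i ∈ Finset.Ico 0 m, (dd M m : ℝ) / dd M i := by
    rw [← Finset.range_eq_Ico, ← Fin.sum_univ_eq_sum_range (fun i => (dd M m : ℝ) / dd M i)]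
    exact Finset.sum_congr rfl (fun i _ => bet_cast M hM m i)
  have h2 := sum_tail M hM m m 0 (by omega)
  rw [← h1] at h2
  have h3 : 2 * ((dd M m : ℝ) / dd M 0) = dd M m := by
    simp only [dd]
    push_cast
    ring
  rw [h3] at h2
  exact_mod_cast h2

theorem exists_good (M : ℕ) (hM : 1 ≤ M) (m : ℕ) : ∃ ω : Om (dd M m) (bet M m),
    ∀ j s : ℕ, j < m → 1 ≤ s → s * dd M (j+1) ≤ 12 * M * (M+1) * dd M m →
      ¬ Bad (bet M m) (j+1) s ω := by
  classical
  set n := dd M m with hn
  set β := bet M m with hβ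
  set N := Fintype.card (VV n β) with hN
  have hN2 : N ≤ 2 * n := by
    rw [hN]
    simp only [Fintype.card_sum, Fintype.card_fin, Fintype.card_sigma]
    have : ∑ x, β x ≤ n := sum_bet_le M hM m
    omega
  have hn1 : 1 ≤ n := by have := two_le_dd M hM m; omega
  by_contra hcon
  push Not at hcon
  have hcover : (univ : Finset (Om n β)) ⊆ (Finset.range m).biUnion (fun j =>
      ((Finset.Icc 1 N).filter (fun s => s * dd M (j+1) ≤ 12 * M * (M+1) * n)).biUnion (fun s =>
        univ.filter (fun ω : Om n β => Bad β (j+1) s ω))) := by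
    intro ω _
    obtain ⟨j, s, hj, hs, hsd, hb⟩ := hcon ω
    simp only [mem_biUnion, mem_filter, mem_univ, true_and, mem_range, mem_Icc]
    refine ⟨j, hj, s, ⟨⟨hs, ?_⟩, hsd⟩, hb⟩
    obtain ⟨S, hS, _⟩ := hb
    rw [← hS]
    exact Finset.card_le_univ S
  have hone : ∀ j s : ℕ, j < m → 1 ≤ s → s * dd M (j+1) ≤ 12 * M * (M+1) * n →
      ((univ.filter (fun ω : Om n β => Bad β (j+1) s ω)).card : ℝ)
        ≤ (1/2)^((j+2)*s) * (Fintype.card (Om n β) : ℝ) := by
    intro j s hj hs hsd
    have hdj : (1:ℝ) ≤ dd M j := by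
      have := two_le_dd M hM j
      exact_mod_cast (by omega : 1 ≤ dd M j)
    apply bad_card_le β (j+1) s ((s:ℝ) * dd M j / n)
    · positivity
    · positivity
    · intro i hi
      have h1 : (bet M m i : ℝ) = (dd M m : ℝ) / dd M i := bet_cast M hM m i
      have hpos : (0:ℝ) < dd M i := by
        have := two_le_dd M hM i
        exact_mod_cast (by omega : 0 < dd M i)
      have hmono : (dd M i : ℝ) ≤ dd M j := by
        exact_mod_cast dd_mono M hM (by omega : (i:ℕ) ≤ j)
      have hn0 : (0:ℝ) < dd M m := by exact_mod_cast hn1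
      rw [hβ, h1, hn]
      have : (s:ℝ) * dd M j / dd M m * (dd M m / dd M i) = s * (dd M j / dd M i) := by
        field_simp
      rw [this]
      have h2 : (1:ℝ) ≤ dd M j / dd M i := by rw [le_div_iff₀ hpos]; linarith
      have hs0 : (0:ℝ) ≤ s := Nat.cast_nonneg _
      nlinarith
    · intro E hE
      have hK : (0:ℝ) < 12 * M * (M+1) := by
        have : (1:ℝ) ≤ M := by exact_mod_cast hM
        positivity
      have := key_real (12 * M * (M+1)) hK j s E n N (dd M j) (dd M (j+1)) hdj hs hn1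
        (by rw [dd_succ]; push_cast; ring) (by exact_mod_cast hsd) hN2 hE
      exact this
  have hcard : (Fintype.card (Om n β) : ℝ) ≤ ∑ j ∈ Finset.range m, ∑ s ∈ Finset.Icc 1 N,
      (1/2)^(j+1) * (1/2:ℝ)^s * (Fintype.card (Om n β) : ℝ) := by
    calc (Fintype.card (Om n β) : ℝ) = ((univ : Finset (Om n β)).card : ℝ) := by
          rw [Finset.card_univ]
      _ ≤ (((Finset.range m).biUnion (fun j =>
      ((Finset.Icc 1 N).filter (fun s => s * dd M (j+1) ≤ 12 * M * (M+1) * n)).biUnion (fun s =>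
        univ.filter (fun ω : Om n β => Bad β (j+1) s ω)))).card : ℝ) := by
          exact_mod_cast Finset.card_le_card hcover
      _ ≤ ∑ j ∈ Finset.range m, ((((Finset.Icc 1 N).filter (fun s => s * dd M (j+1) ≤ 12 * M * (M+1) * n)).biUnion (fun s =>
        univ.filter (fun ω : Om n β => Bad β (j+1) s ω))).card : ℝ) := by
          exact_mod_cast Finset.card_biUnion_le
      _ ≤ ∑ j ∈ Finset.range m, ∑ s ∈ (Finset.Icc 1 N).filter (fun s => s * dd M (j+1) ≤ 12 * M * (M+1) * n),
            ((univ.filter (fun ω : Om n β => Bad β (j+1) s ω)).card : ℝ) := by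
          apply Finset.sum_le_sum
          intro j _
          exact_mod_cast Finset.card_biUnion_le
      _ ≤ ∑ j ∈ Finset.range m, ∑ s ∈ (Finset.Icc 1 N).filter (fun s => s * dd M (j+1) ≤ 12 * M * (M+1) * n),
            (1/2)^(j+1) * (1/2:ℝ)^s * (Fintype.card (Om n β) : ℝ) := by
          apply Finset.sum_le_sum
          intro j hj
          apply Finset.sum_le_sum
          intro s hs
          rw [Finset.mem_filter, Finset.mem_Icc] at hs
          refine (hone j s (Finset.mem_range.1 hj) hs.1.1 hs.2).trans ?_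
          gcongr
          rw [← pow_add]
          apply pow_le_pow_of_le_one (by norm_num) (by norm_num)
          nlinarith [hs.1.1]
      _ ≤ ∑ j ∈ Finset.range m, ∑ s ∈ Finset.Icc 1 N,
            (1/2)^(j+1) * (1/2:ℝ)^s * (Fintype.card (Om n β) : ℝ) := by
          apply Finset.sum_le_sum
          intro j _
          apply Finset.sum_le_sum_of_subset_of_nonneg (Finset.filter_subset _ _)
          intro s _ _
          positivity
  have hfac : ∑ j ∈ Finset.range m, ∑ s ∈ Finset.Icc 1 N,
      (1/2)^(j+1) * (1/2:ℝ)^s * (Fintype.card (Om n β) : ℝ)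
      = (∑ j ∈ Finset.Icc 1 m, (1/2:ℝ)^j) * (∑ s ∈ Finset.Icc 1 N, (1/2:ℝ)^s)
        * (Fintype.card (Om n β) : ℝ) := by
    rw [Finset.sum_mul_sum, Finset.sum_mul]
    have : ∀ f : ℕ → ℝ, ∑ j ∈ Finset.Icc 1 m, f j = ∑ j ∈ Finset.range m, f (j+1) := by
      intro f
      rw [Finset.range_eq_Ico, Finset.sum_Ico_add' f 0 m 1]
      rfl
    rw [this]
    refine Finset.sum_congr rfl (fun j _ => ?_)
    rw [Finset.sum_mul]
  have hΩ : (0:ℝ) < (Fintype.card (Om n β) : ℝ) := by
    have : 0 < Fintype.card (Om n β) := by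
      rw [Fintype.card_pos_iff]
      refine ⟨fun p => ⟨0, ?_⟩⟩
      have h1 := bet_mul M m p.1
      rcases Nat.eq_zero_or_pos (β p.1) with h | h
      · rw [hβ] at h
        rw [h, Nat.zero_mul] at h1
        omega
      · exact h
    exact_mod_cast this
  rw [hfac] at hcard
  have hA := geom_half m
  have hB := geom_half N
  have hA0 : 0 ≤ ∑ j ∈ Finset.Icc 1 m, (1/2:ℝ)^j := Finset.sum_nonneg (fun _ _ => by positivity)
  have hB0 : 0 ≤ ∑ s ∈ Finset.Icc 1 N, (1/2:ℝ)^s := Finset.sum_nonneg (fun _ _ => by positivity)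
  have hAB : (∑ j ∈ Finset.Icc 1 m, (1/2:ℝ)^j) * (∑ s ∈ Finset.Icc 1 N, (1/2:ℝ)^s) < 1 :=
    mul_lt_one_of_nonneg_of_lt_one_left hA0 hA hB.le
  nlinarith

end Pool.Agent.W162.Sauer
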