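import Pool.Agent.W162.Sauer2

open Finset

namespace Pool.Agent.W162.Sauer

variable {m : ℕ}

/-- the graph of a configuration -/
def GG {n : ℕ} (β : Fin m → ℕ) (ω : Om n β) : SimpleGraph (VV n β) where
  Adj u v := ∃ p : Fin m × Fin n,
    (u = Sum.inl p.2 ∧ v = Sum.inr ⟨p.1, ω p⟩) ∨ (v = Sum.inl p.2 ∧ u = Sum.inr ⟨p.1, ω p⟩)
  symm := ⟨fun u v ⟨p, h⟩ => ⟨p, h.symm⟩⟩
  loopless := ⟨by
    rintro u ⟨p, ⟨h1, h2⟩ | ⟨h1, h2⟩⟩
    · rw [h1] at h2; cases h2
    · rw [h1] at h2; cases h2⟩

theorem edges_ge {n : ℕ} (β : Fin m → ℕ) (ω : Om n β) : m * n ≤ (GG β ω).edgeSet.ncard := by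
  classical
  have h : ((univ : Finset (Fin m × Fin n)).image
      (fun p => s((Sum.inl p.2 : VV n β), Sum.inr ⟨p.1, ω p⟩)) : Set (Sym2 (VV n β)))
      ⊆ (GG β ω).edgeSet := by
    intro e he
    simp only [coe_image, coe_univ, Set.image_univ, Set.mem_range] at he
    obtain ⟨p, rfl⟩ := he
    exact ⟨p, Or.inl ⟨rfl, rfl⟩⟩
  have h2 := Set.ncard_le_ncard h (Set.toFinite _)
  rw [Set.ncard_coe_finset, Finset.card_image_of_injective] at h2
  · simpa using h2
  · intro p p' hpp
    simp only [Sym2.eq_iff, Sum.inl.injEq, Sum.inr.injEq, reduceCtorEq, false_and, or_false,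
      Sigma.mk.injEq] at hpp
    exact Prod.ext hpp.2.1 hpp.1

/-- the main combinatorial lemma: a subgraph with all degrees in `[3, M]` gives a locally dense
set -/
theorem no_sub (M : ℕ) (hM : 1 ≤ M) (m n : ℕ) (β : Fin m → ℕ)
    (hβ : ∀ i, (β i : ℝ) = (n : ℝ) / dd M i)
    (htl : ∀ t, t < m → ∑ i ∈ Finset.Ico t m, (n : ℝ) / dd M i ≤ 2 * ((n : ℝ) / dd M t))
    (ω : Om n β)
    (hω : ∀ j s : ℕ, j < m → 1 ≤ s → s * dd M (j+1) ≤ 12 * M * (M+1) * n → ¬ Bad β (j+1) s ω)
    (H : (GG β ω).Subgraph) (hne : H.verts.Nonempty)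
    (hdeg : ∀ x ∈ H.verts, 3 ≤ (H.neighborSet x).ncard ∧ (H.neighborSet x).ncard ≤ M) : False := by
  classical
  -- the edges of `H`
  set T : Finset (Fin m × Fin n) := univ.filter
    (fun p => H.Adj (Sum.inl p.2) (Sum.inr ⟨p.1, ω p⟩)) with hT
  have memT : ∀ p, p ∈ T ↔ H.Adj (Sum.inl p.2) (Sum.inr ⟨p.1, ω p⟩) := by
    intro p; simp [hT]
  set A : Finset (Fin n) := univ.filter (fun x => (Sum.inl x : VV n β) ∈ H.verts) with hA
  have memA : ∀ x, x ∈ A ↔ (Sum.inl x : VV n β) ∈ H.verts := by intro x; simp [hA]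
  have hTA : ∀ p ∈ T, p.2 ∈ A := fun p hp => (memA _).2 (H.edge_vert ((memT p).1 hp))
  -- neighbours
  have adj_inl : ∀ (x : Fin n) (v : VV n β), H.Adj (Sum.inl x) v →
      ∃ i : Fin m, v = Sum.inr ⟨i, ω (i, x)⟩ ∧ (i, x) ∈ T := by
    intro x v h
    obtain ⟨p, ⟨h1, h2⟩ | ⟨h1, h2⟩⟩ := H.adj_sub h
    · simp only [Sum.inl.injEq] at h1
      refine ⟨p.1, ?_, ?_⟩
      · rw [h1, h2]
      · rw [memT, h1]
        rw [h2, h1] at h
        exact h
    · cases h2
  have adj_inr : ∀ (b : Σ i : Fin m, Fin (β i)) (v : VV n β), H.Adj (Sum.inr b) v →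
      ∃ p ∈ T, v = Sum.inl p.2 ∧ b = ⟨p.1, ω p⟩ := by
    intro b v h
    obtain ⟨p, ⟨h1, h2⟩ | ⟨h1, h2⟩⟩ := H.adj_sub h
    · cases h1
    · simp only [Sum.inr.injEq] at h2
      refine ⟨p, ?_, h1, h2⟩
      rw [memT]
      rw [h1, h2] at h
      exact h.symm
  -- degree of a left vertex
  have degL : ∀ x : Fin n, (H.neighborSet (Sum.inl x)).ncard = (T.filter (fun p => p.2 = x)).card := by
    intro x
    rw [← Set.ncard_coe_finset]
    symm
    apply Set.ncard_congr (fun (p : Fin m × Fin n) _ => (Sum.inr ⟨p.1, ω p⟩ : VV n β))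
    · intro p hp
      simp only [coe_filter, Set.mem_ofPred_eq] at hp
      have := (memT p).1 hp.1
      rw [hp.2] at this
      exact this
    · intro p p' hp hp' h
      simp only [coe_filter, Set.mem_ofPred_eq] at hp hp'
      simp only [Sum.inr.injEq, Sigma.mk.injEq] at h
      exact Prod.ext h.1 (hp.2.trans hp'.2.symm)
    · intro v hv
      obtain ⟨i, h1, h2⟩ := adj_inl x v hv
      refine ⟨(i, x), ?_, h1.symm⟩
      simp only [coe_filter, Set.mem_ofPred_eq]
      exact ⟨h2, trivial⟩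
  -- degree of a right vertex
  have degR : ∀ b : Σ i : Fin m, Fin (β i), (H.neighborSet (Sum.inr b)).ncard
      = (T.filter (fun p => (⟨p.1, ω p⟩ : Σ i : Fin m, Fin (β i)) = b)).card := by
    intro b
    rw [← Set.ncard_coe_finset]
    symm
    apply Set.ncard_congr (fun (p : Fin m × Fin n) _ => (Sum.inl p.2 : VV n β))
    · intro p hp
      simp only [coe_filter, Set.mem_ofPred_eq] at hp
      have := (memT p).1 hp.1
      rw [hp.2] at this
      exact this.symm
    · intro p p' hp hp' h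
      simp only [coe_filter, Set.mem_ofPred_eq] at hp hp'
      simp only [Sum.inl.injEq] at h
      have h1 : p.1 = p'.1 := by
        have := hp.2.trans hp'.2.symm
        simp only [Sigma.mk.injEq] at this
        exact this.1
      exact Prod.ext h1 h
    · intro v hv
      obtain ⟨p, hp, h1, h2⟩ := adj_inr b v hv
      refine ⟨p, ?_, h1.symm⟩
      simp only [coe_filter, Set.mem_ofPred_eq]
      exact ⟨hp, h2.symm⟩
  set a := A.card with ha
  -- total number of edges
  have hTsum : T.card = ∑ x ∈ A, (T.filter (fun p => p.2 = x)).card :=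
    Finset.card_eq_sum_card_fiberwise (fun p hp => hTA p hp)
  have hT3 : 3 * a ≤ T.card := by
    rw [hTsum, ha, mul_comm, ← smul_eq_mul]
    apply Finset.card_nsmul_le_sum
    intro x hx
    rw [← degL x]
    exact (hdeg _ ((memA x).1 hx)).1
  have hTM : T.card ≤ a * M := by
    rw [hTsum, ha, ← smul_eq_mul]
    apply Finset.sum_le_card_nsmul
    intro x hx
    rw [← degL x]
    exact (hdeg _ ((memA x).1 hx)).2
  have ha1 : 1 ≤ a := by
    obtain ⟨v, hv⟩ := hne
    rw [ha, Nat.one_le_iff_ne_zero, ← Nat.pos_iff_ne_zero, Finset.card_pos]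
    rcases v with x | b
    · exact ⟨x, (memA x).2 hv⟩
    · have h3 := (hdeg _ hv).1
      rw [degR b] at h3
      have : (T.filter (fun p => (⟨p.1, ω p⟩ : Σ i : Fin m, Fin (β i)) = b)).Nonempty := by
        rw [← Finset.card_pos]; omega
      obtain ⟨p, hp⟩ := this
      exact ⟨p.2, hTA p (Finset.mem_filter.1 hp).1⟩
  -- the levels
  have hlev1 : ∀ i : Fin m, (T.filter (fun p => p.1 = i)).card ≤ a := by
    intro i
    rw [ha]
    apply Finset.card_le_card_of_injOn (fun p => p.2)
    · intro p hp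
      have hp' := Finset.mem_filter.1 (Finset.mem_coe.1 hp)
      exact hTA p hp'.1
    · intro p hp p' hp' h
      have h1 := (Finset.mem_filter.1 (Finset.mem_coe.1 hp)).2
      have h2 := (Finset.mem_filter.1 (Finset.mem_coe.1 hp')).2
      exact Prod.ext (h1.trans h2.symm) h
  have hfibM : ∀ b : Σ i : Fin m, Fin (β i),
      (T.filter (fun p => (⟨p.1, ω p⟩ : Σ i : Fin m, Fin (β i)) = b)).card ≤ M := by
    intro b
    by_cases hb : (Sum.inr b : VV n β) ∈ H.verts
    · rw [← degR b]; exact (hdeg _ hb).2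
    · have : T.filter (fun p => (⟨p.1, ω p⟩ : Σ i : Fin m, Fin (β i)) = b) = ∅ := by
        rw [Finset.filter_eq_empty_iff]
        intro p hp h
        apply hb
        rw [← h]
        exact H.edge_vert ((memT p).1 hp).symm
      rw [this]; simp
  have hlev2 : ∀ i : Fin m, (T.filter (fun p => p.1 = i)).card ≤ β i * M := by
    intro i
    have h1 : (T.filter (fun p => p.1 = i)).card = ∑ b ∈ (univ : Finset (Fin (β i))),
        ((T.filter (fun p => p.1 = i)).filter
          (fun p => (⟨p.1, ω p⟩ : Σ i : Fin m, Fin (β i)) = ⟨i, b⟩)).card := by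
      have h2 : (T.filter (fun p => p.1 = i)).card = ∑ b ∈ (univ.image
          (fun b : Fin (β i) => (⟨i, b⟩ : Σ i : Fin m, Fin (β i)))),
        ((T.filter (fun p => p.1 = i)).filter
          (fun p => (⟨p.1, ω p⟩ : Σ i : Fin m, Fin (β i)) = b)).card := by
        apply Finset.card_eq_sum_card_fiberwise
        intro p hp
        have hp1 := (Finset.mem_filter.1 (Finset.mem_coe.1 hp)).2
        subst hp1
        simp
      rw [h2, Finset.sum_image]
      intro b _ b' _ h
      simpa using h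
    rw [h1]
    have h3 : ∀ b ∈ (univ : Finset (Fin (β i))), ((T.filter (fun p => p.1 = i)).filter
          (fun p => (⟨p.1, ω p⟩ : Σ i : Fin m, Fin (β i)) = ⟨i, b⟩)).card ≤ M := by
      intro b _
      refine le_trans (Finset.card_le_card ?_) (hfibM ⟨i, b⟩)
      intro p hp
      rw [Finset.mem_filter] at hp ⊢
      exact ⟨(Finset.mem_filter.1 hp.1).1, hp.2⟩
    refine (Finset.sum_le_card_nsmul _ _ _ h3).trans ?_
    simp
  -- number of edges on the levels `≥ t`
  have htail : ∀ t : ℕ, t < m → ((T.filter (fun p => t ≤ (p.1 : ℕ))).card : ℝ)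
      ≤ M * (2 * ((n : ℝ) / dd M t)) := by
    intro t ht
    have h1 : (T.filter (fun p => t ≤ (p.1 : ℕ))).card
        = ∑ i ∈ (univ : Finset (Fin m)).filter (fun i : Fin m => t ≤ (i : ℕ)),
          ((T.filter (fun p => t ≤ (p.1 : ℕ))).filter (fun p => p.1 = i)).card := by
      apply Finset.card_eq_sum_card_fiberwise
      intro p hp
      have hp1 := (Finset.mem_filter.1 (Finset.mem_coe.1 hp)).2
      simp [hp1]
    have h2 : (T.filter (fun p => t ≤ (p.1 : ℕ))).card
        ≤ ∑ i ∈ (univ : Finset (Fin m)).filter (fun i : Fin m => t ≤ (i : ℕ)), β i * M := by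
      rw [h1]
      apply Finset.sum_le_sum
      intro i _
      refine le_trans (Finset.card_le_card ?_) (hlev2 i)
      intro p hp
      rw [Finset.mem_filter] at hp ⊢
      exact ⟨(Finset.mem_filter.1 hp.1).1, hp.2⟩
    have h3 : ((T.filter (fun p => t ≤ (p.1 : ℕ))).card : ℝ)
        ≤ ∑ i ∈ (univ : Finset (Fin m)).filter (fun i : Fin m => t ≤ (i : ℕ)), (β i : ℝ) * M := by
      exact_mod_cast h2
    refine h3.trans ?_
    rw [← Finset.sum_mul, mul_comm]
    have hM0 : (0:ℝ) ≤ M := Nat.cast_nonneg _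
    refine mul_le_mul_of_nonneg_left ?_ hM0
    refine le_trans (le_of_eq ?_) (htl t ht)
    rw [Finset.sum_filter]
    have h6 : ∑ i ∈ Finset.Ico t m, (n : ℝ) / dd M i
        = ∑ i ∈ Finset.range m, if t ≤ i then (n : ℝ) / dd M i else 0 := by
      rw [← Finset.sum_filter]
      apply Finset.sum_congr _ (fun _ _ => rfl)
      ext i
      simp only [mem_Ico, mem_filter, mem_range]
      tauto
    rw [h6, ← Fin.sum_univ_eq_sum_range (fun i => if t ≤ i then (n : ℝ) / dd M i else 0)]
    refine Finset.sum_congr rfl (fun i _ => ?_)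
    rw [hβ i]
  have hdpos : ∀ t, (0:ℝ) < dd M t := by
    intro t
    have := two_le_dd M hM t
    exact_mod_cast (by omega : 0 < dd M t)
  -- a level is small if `12 M n ≤ a dd t`
  by_cases hall : ∃ t : ℕ, t < m ∧ a * dd M t < 12 * M * n
  swap
  · push Not at hall
    rcases Nat.eq_zero_or_pos m with hm0 | hm0
    · have : T.card = 0 := by
        rw [Finset.card_eq_zero, Finset.eq_empty_iff_forall_notMem]
        intro p _
        have := p.1.2
        omega
      omega
    · have h1 := htail 0 hm0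
      have h2 : T.filter (fun p => 0 ≤ (p.1 : ℕ)) = T := by simp
      rw [h2] at h1
      have h3 : (12:ℝ) * M * n ≤ a * dd M 0 := by exact_mod_cast hall 0 hm0
      have h4 : (n : ℝ) / dd M 0 * dd M 0 = n := div_mul_cancel₀ _ (hdpos 0).ne'
      have h5 : (3:ℝ) * a ≤ T.card := by exact_mod_cast hT3
      have h6 : (1:ℝ) ≤ a := by exact_mod_cast ha1
      have h7 := hdpos 0
      have h8 : 12 * (M:ℝ) * ((n : ℝ) / dd M 0) ≤ a := by
        rw [mul_div_assoc', div_le_iff₀ h7]; exact h3
      nlinarith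
  -- the last level that is not small
  obtain ⟨t, ht, htmax⟩ : ∃ t : ℕ, (t < m ∧ a * dd M t < 12 * M * n) ∧
      ∀ t', t' < m → a * dd M t' < 12 * M * n → t' ≤ t := by
    have hfin : ((Finset.range m).filter (fun t => a * dd M t < 12 * M * n)).Nonempty := by
      obtain ⟨t, h1, h2⟩ := hall
      exact ⟨t, by simp [h1, h2]⟩
    refine ⟨((Finset.range m).filter (fun t => a * dd M t < 12 * M * n)).max' hfin, ?_, ?_⟩
    · have := Finset.max'_mem _ hfin
      simpa using this
    · intro t' h1 h2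
      apply Finset.le_max'
      simp [h1, h2]
  -- edges above `t`
  have habove : 6 * (T.filter (fun p => t + 1 ≤ (p.1 : ℕ))).card ≤ a := by
    rcases Nat.lt_or_ge (t+1) m with h | h
    · have h1 := htail (t+1) h
      have h2 : 12 * M * n ≤ a * dd M (t+1) := by
        by_contra hc
        push Not at hc
        have := htmax (t+1) h hc
        omega
      have h3 : (12:ℝ) * M * n ≤ a * dd M (t+1) := by exact_mod_cast h2
      have h8 : 12 * (M:ℝ) * ((n : ℝ) / dd M (t+1)) ≤ a := by
        rw [mul_div_assoc', div_le_iff₀ (hdpos (t+1))]; exact h3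
      have h9 : (6:ℝ) * (T.filter (fun p => t + 1 ≤ (p.1 : ℕ))).card ≤ a := by nlinarith
      exact_mod_cast h9
    · have : T.filter (fun p => t + 1 ≤ (p.1 : ℕ)) = ∅ := by
        rw [Finset.filter_eq_empty_iff]
        intro p _ h'
        have := p.1.2
        omega
      rw [this]; simp
  -- split
  have hsplit : T.card ≤ (T.filter (fun p => (p.1 : ℕ) < t)).card + a
      + (T.filter (fun p => t + 1 ≤ (p.1 : ℕ))).card := by
    have h1 : T ⊆ T.filter (fun p => (p.1 : ℕ) < t) ∪ T.filter (fun p => p.1 = ⟨t, ht.1⟩)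
        ∪ T.filter (fun p => t + 1 ≤ (p.1 : ℕ)) := by
      intro p hp
      simp only [mem_union, mem_filter, hp, true_and]
      rcases Nat.lt_trichotomy (p.1 : ℕ) t with h | h | h
      · exact Or.inl (Or.inl h)
      · exact Or.inl (Or.inr (Fin.ext h))
      · exact Or.inr h
    have h2 := Finset.card_le_card h1
    have h3 := Finset.card_union_le (T.filter (fun p => (p.1 : ℕ) < t) ∪
      T.filter (fun p => p.1 = ⟨t, ht.1⟩)) (T.filter (fun p => t + 1 ≤ (p.1 : ℕ)))
    have h4 := Finset.card_union_le (T.filter (fun p => (p.1 : ℕ) < t))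
      (T.filter (fun p => p.1 = ⟨t, ht.1⟩))
    have h5 := hlev1 ⟨t, ht.1⟩
    omega
  set P := T.filter (fun p => (p.1 : ℕ) < t) with hP
  have hPa : 11 * a ≤ 6 * P.card := by omega
  -- `t` is positive
  have ht0 : 1 ≤ t := by
    rcases Nat.eq_zero_or_pos t with h | h
    · have : P = ∅ := by
        rw [hP, Finset.filter_eq_empty_iff]
        intro p _ h'
        omega
      rw [this] at hPa
      simp only [card_empty, mul_zero] at hPa
      omega
    · exact h
  -- the right vertices of low level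
  set B : Finset (Σ i : Fin m, Fin (β i)) := univ.filter
    (fun b => (Sum.inr b : VV n β) ∈ H.verts ∧ (b.1 : ℕ) < t) with hB
  have hB3 : B.card * 3 ≤ P.card := by
    have h1 : P.card = ∑ b ∈ B, (P.filter (fun p => (⟨p.1, ω p⟩ : Σ i : Fin m, Fin (β i)) = b)).card := by
      apply Finset.card_eq_sum_card_fiberwise
      intro p hp
      have hp' := Finset.mem_filter.1 (Finset.mem_coe.1 hp)
      simp only [hB, coe_filter, mem_univ, true_and, Set.mem_ofPred_eq]
      exact ⟨H.edge_vert ((memT p).1 hp'.1).symm, hp'.2⟩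
    rw [h1, ← smul_eq_mul]
    apply Finset.card_nsmul_le_sum
    intro b hb
    have hb' : (Sum.inr b : VV n β) ∈ H.verts ∧ (b.1 : ℕ) < t := by
      simpa [hB] using hb
    have h2 := (hdeg _ hb'.1).1
    rw [degR b] at h2
    refine h2.trans (Finset.card_le_card ?_)
    intro p hp
    rw [Finset.mem_filter] at hp ⊢
    refine ⟨?_, hp.2⟩
    rw [hP, Finset.mem_filter]
    refine ⟨hp.1, ?_⟩
    have := hb'.2
    rw [← hp.2] at this
    exact this
  -- the dense set
  set S : Finset (VV n β) := A.disjSum B with hS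
  have hScard : S.card = a + B.card := by rw [hS, Finset.card_disjSum]
  have hPT : P.card ≤ T.card := Finset.card_filter_le _ _
  obtain ⟨j, rfl⟩ : ∃ j, t = j + 1 := ⟨t - 1, by omega⟩
  apply hω j S.card (by omega) (by omega)
  · rw [hScard]
    have h1 : 3 * (a + B.card) ≤ 3 * ((M+1) * a) := by
      have : P.card ≤ a * M := hPT.trans hTM
      nlinarith
    have h2 : a + B.card ≤ (M+1) * a := by omega
    calc (a + B.card) * dd M (j+1) ≤ (M+1) * a * dd M (j+1) := Nat.mul_le_mul_right _ h2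
      _ = (M+1) * (a * dd M (j+1)) := by ring
      _ ≤ (M+1) * (12 * M * n) := Nat.mul_le_mul_left _ ht.2.le
      _ = 12 * M * (M+1) * n := by ring
  · refine ⟨S, rfl, P, ?_, ?_⟩
    · intro p hp
      have hp' := Finset.mem_filter.1 hp
      refine ⟨hp'.2, ?_, ?_⟩
      · rw [hS, Finset.inl_mem_disjSum]
        exact hTA p hp'.1
      · rw [hS, Finset.inr_mem_disjSum]
        simp only [hB, mem_filter, mem_univ, true_and]
        exact ⟨H.edge_vert ((memT p).1 hp'.1).symm, hp'.2⟩
    · rw [hScard]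
      omega

end Pool.Agent.W162.Sauer
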